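import Pool.Agent.Lib.MP_814928_co.Squares

/-!
Eight pairwise disjoint translates of a square, any three of which have a common line transversal,
such that every line misses at least three of them.
-/

set_option autoImplicit false

open Pool.Agent.Lib.MP_814928_co

namespace Pool.Agent.Results.MP_814928_co.EightSquares

/-- the line `a x + b y = c` -/
def line (a b c : ℝ) : Set (ℝ × ℝ) := {z | a * z.1 + b * z.2 = c}

/-- the translate of a set by a vector -/
def translate (v : ℝ × ℝ) (K : Set (ℝ × ℝ)) : Set (ℝ × ℝ) := {z | z - v ∈ K}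

/-- the vectors of the translations -/
noncomputable def vec (i : Fin 8) : ℝ × ℝ := ((X i : ℝ), (Y i : ℝ))

lemma mem_translate (i : Fin 8) (z : ℝ × ℝ) :
    z ∈ translate (vec i) (Set.Icc (0 : ℝ) 14 ×ˢ Set.Icc (0 : ℝ) 14) ↔
      ((X i : ℝ) ≤ z.1 ∧ z.1 ≤ X i + 14) ∧ ((Y i : ℝ) ≤ z.2 ∧ z.2 ≤ Y i + 14) := by
  unfold translate vec
  simp only [Set.mem_ofPred_eq, Set.mem_prod, Set.mem_Icc, Prod.fst_sub, Prod.snd_sub]
  constructor
  · rintro ⟨⟨h1, h2⟩, h3, h4⟩
    refine ⟨⟨?_, ?_⟩, ?_, ?_⟩ <;> linarith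
  · rintro ⟨⟨h1, h2⟩, h3, h4⟩
    refine ⟨⟨?_, ?_⟩, ?_, ?_⟩ <;> linarith

/-- There are a compact convex set `K` with nonempty interior in the plane and eight pairwise
disjoint translates of `K` such that any three of them have a common line transversal and every
line misses at least three of them. -/
theorem result : ∃ (K : Set (ℝ × ℝ)) (v : Fin 8 → ℝ × ℝ), IsCompact K ∧ Convex ℝ K ∧
    (interior K).Nonempty ∧ Function.Injective v ∧
    (∀ i j, i ≠ j → Disjoint (translate (v i) K) (translate (v j) K)) ∧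
    (∀ i j k, ∃ a b c : ℝ, (a ≠ 0 ∨ b ≠ 0) ∧ (line a b c ∩ translate (v i) K).Nonempty ∧
      (line a b c ∩ translate (v j) K).Nonempty ∧ (line a b c ∩ translate (v k) K).Nonempty) ∧
    (∀ a b c : ℝ, (a ≠ 0 ∨ b ≠ 0) →
      3 ≤ Nat.card {i : Fin 8 // line a b c ∩ translate (v i) K = ∅}) := by
  classical
  refine ⟨Set.Icc (0 : ℝ) 14 ×ˢ Set.Icc (0 : ℝ) 14, vec, isCompact_Icc.prod isCompact_Icc,
    (convex_Icc 0 14).prod (convex_Icc 0 14), ?_, ?_, ?_, ?_, ?_⟩
  · rw [interior_prod_eq, interior_Icc]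
    exact ⟨(1, 1), by norm_num [Set.mem_prod, Set.mem_Ioo]⟩
  · intro i j h
    have h1 : (X i : ℝ) = X j := congrArg Prod.fst h
    have h2 : X i = X j := by exact_mod_cast h1
    have : ∀ i j, X i = X j → i = j := by decide
    exact this i j h2
  · intro i j hij
    rw [Set.disjoint_left]
    intro z hz1 hz2
    rw [mem_translate] at hz1 hz2
    obtain ⟨⟨a1, a2⟩, a3, a4⟩ := hz1
    obtain ⟨⟨b1, b2⟩, b3, b4⟩ := hz2
    apply disj_int i j hij
    refine ⟨⟨?_, ?_⟩, ?_, ?_⟩
    · have : (X i : ℝ) ≤ X j + 14 := by linarith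
      exact_mod_cast this
    · have : (X j : ℝ) ≤ X i + 14 := by linarith
      exact_mod_cast this
    · have : (Y i : ℝ) ≤ Y j + 14 := by linarith
      exact_mod_cast this
    · have : (Y j : ℝ) ≤ Y i + 14 := by linarith
      exact_mod_cast this
  · intro i j k
    obtain ⟨l, l1, l2, l3⟩ := three_hit i j k
    refine ⟨(la l : ℤ), (lb l : ℤ), (lc l : ℤ), ?_, ?_⟩
    · rcases l_ne l with h | h
      · left; exact_mod_cast h
      · right; exact_mod_cast h
    · have key : ∀ m, hit l m → (line ((la l : ℤ) : ℝ) ((lb l : ℤ) : ℝ) ((lc l : ℤ) : ℝ) ∩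
          translate (vec m) (Set.Icc (0 : ℝ) 14 ×ˢ Set.Icc (0 : ℝ) 14)).Nonempty := by
        rintro m ⟨h1, h2⟩
        obtain ⟨z, w, hz, hw, hzw⟩ := exists_of_hit ((la l : ℤ) : ℝ) ((lb l : ℤ) : ℝ)
          ((lc l : ℤ) : ℝ) (X m) (Y m) (by exact_mod_cast h1) (by exact_mod_cast h2)
        refine ⟨(z, w), hzw, ?_⟩
        rw [mem_translate]
        exact ⟨hz, hw⟩
      exact ⟨key i l1, key j l2, key k l3⟩
  · intro a b c hab
    rw [Nat.card_eq_fintype_card, Fintype.card_subtype]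
    by_contra hcon
    refine no_line_all a b c hab _ (by omega : (Finset.univ.filter fun i : Fin 8 =>
      line a b c ∩ translate (vec i) (Set.Icc (0 : ℝ) 14 ×ˢ Set.Icc (0 : ℝ) 14) = ∅).card ≤ 2)
      fun i hi => ?_
    rw [Finset.mem_filter, not_and] at hi
    obtain ⟨z, hz1, hz2⟩ := Set.nonempty_iff_ne_empty.2 (hi (Finset.mem_univ i))
    rw [mem_translate] at hz2
    exact ⟨z.1, z.2, hz2.1, hz2.2, hz1⟩

end Pool.Agent.Results.MP_814928_co.EightSquares
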